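import Pool.Agent.Helper66.SB.GoalsB

/-!
# Project SB (MP_d3128a_ag), packet GP: general position.
-/

set_option autoImplicit false

open Module MvPolynomial

noncomputable section

namespace Pool.Agent.Helper17.SB

open Helper18.Shgh Pool.Agent.Helper66.SB

/-- The coefficients of the translated polynomial are polynomials in the point. -/
theorem coeff_tau_poly (e : Fin 2 →₀ ℕ) (F : R2) :
    ∃ p : R2, ∀ P : Fin 2 → ℂ, coeff e (tau P F) = eval P p := by
  refine ⟨coeff e (aeval (fun i => (C (X i) + X i : MvPolynomial (Fin 2) R2)) F), fun P => ?_⟩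
  have h : tau P F = MvPolynomial.map (eval P)
      (aeval (fun i => (C (X i) + X i : MvPolynomial (Fin 2) R2)) F) := by
    induction F using MvPolynomial.induction_on with
    | C a =>
        simp only [algHom_C]
        simp [MvPolynomial.algebraMap_eq, MvPolynomial.algebraMap_apply]
    | add p q hp hq => rw [map_add, map_add, map_add, hp, hq]
    | mul_X p i hp =>
        rw [map_mul, map_mul, map_mul, hp]
        congr 1
        simp [tau, add_comm]
  rw [h, MvPolynomial.coeff_map]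

/-- Continuity of the coefficients of `tau P F` in `P` and in the coefficients of `F`. -/
theorem tendsto_coeff_tau {k : ℕ} {F : R2} {Fn : ℕ → R2} {P : Fin 2 → ℂ} {Pn : ℕ → Fin 2 → ℂ}
    (hF : F ∈ V (k : ℤ)) (hFn : ∀ n, Fn n ∈ V (k : ℤ))
    (hlim : ∀ e : Fin 2 →₀ ℕ,
      Filter.Tendsto (fun n => coeff e (Fn n)) Filter.atTop (nhds (coeff e F)))
    (hP : Filter.Tendsto Pn Filter.atTop (nhds P)) (e : Fin 2 →₀ ℕ) :
    Filter.Tendsto (fun n => coeff e (tau (Pn n) (Fn n))) Filter.atTop
      (nhds (coeff e (tau P F))) := by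
  classical
  have hfin : {f : Fin 2 →₀ ℕ | f.degree ≤ k}.Finite := Finsupp.finite_of_degree_le k
  have key : ∀ (H : R2), H ∈ V (k : ℤ) → ∀ R : Fin 2 → ℂ,
      coeff e (tau R H) = ∑ f ∈ hfin.toFinset, coeff f H *
        coeff e (tau R (monomial f (1 : ℂ))) := by
    intro H hH R
    have hs : H.support ⊆ hfin.toFinset := by
      intro f hf
      rw [Set.Finite.mem_toFinset]
      have h1 := (mem_V'.1 hH) f (MvPolynomial.mem_support_iff.1 hf)
      change f.degree ≤ k
      exact_mod_cast h1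
    have h3 : H = ∑ f ∈ hfin.toFinset, coeff f H • monomial f (1 : ℂ) := by
      conv_lhs => rw [MvPolynomial.as_sum H]
      rw [Finset.sum_subset hs]
      · apply Finset.sum_congr rfl
        intro f _
        rw [MvPolynomial.smul_monomial, smul_eq_mul, mul_one]
      · intro f _ hf
        rw [MvPolynomial.notMem_support_iff.1 hf, monomial_zero]
    conv_lhs => rw [h3]
    rw [map_sum, MvPolynomial.coeff_sum]
    apply Finset.sum_congr rfl
    intro f _
    rw [map_smul, MvPolynomial.coeff_smul, smul_eq_mul]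
  rw [key F hF P]
  have h4 : (fun n => coeff e (tau (Pn n) (Fn n))) = fun n => ∑ f ∈ hfin.toFinset,
      coeff f (Fn n) * coeff e (tau (Pn n) (monomial f (1 : ℂ))) := by
    funext n
    exact key (Fn n) (hFn n) (Pn n)
  rw [h4]
  apply tendsto_finsetSum
  intro f _
  apply Filter.Tendsto.mul (hlim f)
  obtain ⟨p, hp⟩ := coeff_tau_poly e (monomial f (1 : ℂ))
  simp only [hp]
  exact ((MvPolynomial.continuous_eval p).tendsto P).comp hP

/-- A sequence of points approaching a given point, outside a hypersurface. -/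
theorem exists_seq {σ : Type} [Finite σ] (G : MvPolynomial σ ℂ) (hG : G ≠ 0) (p0 : σ → ℂ) :
    ∃ pn : ℕ → σ → ℂ, Filter.Tendsto pn Filter.atTop (nhds p0) ∧
      ∀ᶠ n in Filter.atTop, eval (pn n) G ≠ 0 := by
  obtain ⟨x, hx⟩ : ∃ x : σ → ℂ, eval x G ≠ 0 := by
    by_contra hcon
    push Not at hcon
    exact hG (MvPolynomial.funext fun x => by rw [hcon x, map_zero])
  set g : Polynomial ℂ := aeval (fun i => (Polynomial.C (p0 i) +
    Polynomial.X * Polynomial.C (x i - p0 i) : Polynomial ℂ)) G with hg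
  have hgev : ∀ z : ℂ, g.eval z = eval (fun i => p0 i + z * (x i - p0 i)) G := by
    intro z
    have h1 : g.eval z = (Polynomial.aeval z : Polynomial ℂ →ₐ[ℂ] ℂ) g := by
      rw [Polynomial.coe_aeval_eq_eval]
    rw [h1, hg, ← AlgHom.comp_apply, MvPolynomial.comp_aeval]
    rw [MvPolynomial.aeval_def, MvPolynomial.eval₂_eq_eval_map]
    simp
  have hg0 : g ≠ 0 := by
    intro h0
    have h1 := hgev 1
    rw [h0, Polynomial.eval_zero] at h1
    apply hx
    rw [h1]
    congr 2
    funext i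
    ring
  refine ⟨fun n i => p0 i + (1 / ((n : ℂ) + 1)) * (x i - p0 i), ?_, ?_⟩
  · rw [tendsto_pi_nhds]
    intro i
    have h1 : Filter.Tendsto (fun n : ℕ => (1 / ((n : ℂ) + 1))) Filter.atTop (nhds 0) :=
      tendsto_one_div_add_atTop_nhds_zero_nat
    have h2 := (h1.mul_const (x i - p0 i)).const_add (p0 i)
    rw [zero_mul, add_zero] at h2
    exact h2
  · have hinj : Function.Injective (fun n : ℕ => (1 / ((n : ℂ) + 1))) := by
      intro a b hab
      simp only [one_div, inv_inj, add_left_inj, Nat.cast_inj] at hab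
      exact hab
    have hfin : {n : ℕ | g.eval (1 / ((n : ℂ) + 1)) = 0}.Finite := by
      have h1 : {z : ℂ | g.eval z = 0}.Finite := by
        apply Set.Finite.subset (g.roots.toFinset.finite_toSet)
        intro z hz
        simp only [Finset.mem_coe, Multiset.mem_toFinset]
        rw [Polynomial.mem_roots hg0]
        exact hz
      exact h1.preimage (hinj.injOn)
    rw [← Nat.cofinite_eq_atTop, Filter.eventually_cofinite]
    apply hfin.subset
    intro n hn
    simp only [Set.mem_ofPred_eq, not_not] at hn ⊢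
    rw [hgev]
    exact hn

theorem gGP (hIRR : G_IRR) (hCPT : G_CPT) (hLIF : G_LIF) : G_GP := by
  intro r k u w hS Q hQ
  obtain ⟨G, hG0, hGQ⟩ := hQ
  obtain ⟨t, F0, ht, hgood, hdim⟩ := hIRR r k u w hS
  set P0 : Fin r → Fin 2 → ℂ := fun i => ga (t i) with hP0
  obtain ⟨pn, hpn, hGn⟩ := exists_seq G hG0 (fun x : Fin r × Fin 2 => P0 x.1 x.2)
  set Pn : ℕ → Fin r → Fin 2 → ℂ := fun n i j => pn n (i, j) with hPn
  have hPn1 : Filter.Tendsto Pn Filter.atTop (nhds P0) := by
    rw [tendsto_pi_nhds]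
    intro i
    rw [tendsto_pi_nhds]
    intro j
    exact (tendsto_pi_nhds.1 hpn) (i, j)
  obtain ⟨Fn, hFn, hlim⟩ := hLIF r k w P0 F0 Pn hdim hgood.mem hPn1
  have hk : 1 ≤ k := by
    rcases Nat.eq_zero_or_pos k with h0 | h0
    · exfalso
      have h1 := hS.sqr
      have h2 := hS.pos
      rw [h0] at h1
      simp at h1
      omega
    · exact h0
  have hV0 : F0 ∈ V (k : ℤ) := (mem_SP.1 hgood.mem).1
  have hVn : ∀ n, Fn n ∈ V (k : ℤ) := fun n => (mem_SP.1 (hFn n)).1
  have h1 := hCPT k F0 Fn hk hgood.irr hgood.top hV0 hVn hlim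
  have h2 : ∀ᶠ n in Filter.atTop, coeff (Finsupp.single 1 k) (Fn n) ≠ 0 :=
    (hlim _).eventually_ne hgood.top
  have h3 : ∀ i, ∀ᶠ n in Filter.atTop, Fn n ∉ mI (Pn n i) ^ (w i + 1) := by
    intro i
    have h4 := hgood.exact i
    rw [mem_mI_pow] at h4
    push Not at h4
    obtain ⟨e, he, hne⟩ := h4
    have h5 := tendsto_coeff_tau hV0 hVn hlim ((tendsto_pi_nhds.1 hPn1) i) e
    filter_upwards [h5.eventually_ne hne] with n hn
    intro hmem
    rw [mem_mI_pow] at hmem
    exact hn (hmem e he)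
  have h3' : ∀ᶠ n in Filter.atTop, ∀ i, Fn n ∉ mI (Pn n i) ^ (w i + 1) :=
    Filter.eventually_all.2 h3
  obtain ⟨n, ha, hb, hc, hd⟩ := (h1.and (h2.and (h3'.and hGn))).exists
  exact ⟨Pn n, Fn n, hGQ (Pn n) hd, ⟨ha, hFn n, hb, hc⟩⟩

end Pool.Agent.Helper17.SB
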